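import Pool.Agent.Run7.h872.WD.Defs

set_option autoImplicit false

namespace Pool.Agent.Run7.h727.WD

set_option linter.unusedSectionVars false

open scoped Classical
open Finset Pool.Agent.Run7.h872.WD

section
variable {K : Type} [Field K] [Fintype K] [Algebra (ZMod 2) K]

lemma psi_add (x y : K) : psi (x + y) = psi x * psi y := by
  unfold psi
  rw [map_add]
  generalize Algebra.trace (ZMod 2) K x = a
  generalize Algebra.trace (ZMod 2) K y = b
  have h2 : ∀ a b : ZMod 2, (if a + b = 0 then (1 : ℚ) else -1)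
      = (if a = 0 then 1 else -1) * (if b = 0 then 1 else -1) := by
    intro a b
    have h3 : ∀ c : ZMod 2, c = 0 ∨ c = 1 := by decide
    have h4 : (1 : ZMod 2) + 1 = 0 := by decide
    rcases h3 a with rfl | rfl <;> rcases h3 b with rfl | rfl <;> simp [h4]
  exact h2 a b

lemma psi_zero : psi (0 : K) = 1 := by simp [psi]

lemma psi_or (x : K) : psi x = 1 ∨ psi x = -1 := by
  unfold psi; split_ifs <;> simp

lemma psi_sq (x : K) : psi x * psi x = 1 := by
  rcases psi_or x with h | h <;> rw [h] <;> norm_num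

lemma psi_congr {x y : K} (h : Algebra.trace (ZMod 2) K x = Algebra.trace (ZMod 2) K y) :
    psi x = psi y := by
  unfold psi; rw [h]

lemma two_eq : (2 : K) = 0 := by
  have h : (algebraMap (ZMod 2) K) 2 = 2 := map_ofNat _ 2
  rw [← h, show (2 : ZMod 2) = 0 from by decide, map_zero]

lemma add_self (x : K) : x + x = 0 := by
  rw [← two_mul, two_eq, zero_mul]

instance charP : CharP K 2 := charP_of_injective_algebraMap (algebraMap (ZMod 2) K).injective 2

lemma tr_sq (x : K) : Algebra.trace (ZMod 2) K (x ^ 2) = Algebra.trace (ZMod 2) K x := by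
  have h := Algebra.trace_eq_of_algEquiv (FiniteField.frobeniusAlgEquivOfAlgebraic (ZMod 2) K) x
  rw [← h, FiniteField.coe_frobeniusAlgEquivOfAlgebraic]
  simp [ZMod.card]

lemma tr_pow (n : ℕ) (x : K) :
    Algebra.trace (ZMod 2) K (x ^ 2 ^ n) = Algebra.trace (ZMod 2) K x := by
  induction n with
  | zero => simp
  | succ n ih => rw [pow_succ, pow_mul, tr_sq, ih]

lemma exists_psi : ∃ x : K, psi x = -1 := by
  obtain ⟨x, hx⟩ := Algebra.trace_surjective (ZMod 2) K 1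
  refine ⟨x, ?_⟩
  unfold psi
  rw [hx, if_neg (by decide)]

lemma sum_psi : ∑ x : K, psi x = 0 := by
  obtain ⟨x0, h0⟩ := exists_psi (K := K)
  have h1 : ∑ x : K, psi x = ∑ x : K, psi (x + x0) :=
    (Equiv.sum_comp (Equiv.addRight x0) (fun x => psi x)).symm
  simp_rw [psi_add, h0] at h1
  rw [← Finset.sum_mul] at h1
  linarith

lemma sum_psi_mul (a : K) : ∑ x : K, psi (x * a) = if a = 0 then (Fintype.card K : ℚ) else 0 := by
  split_ifs with h
  · subst h
    simp [psi_zero, Finset.card_univ]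
  · rw [← sum_psi (K := K)]
    exact Equiv.sum_comp (Equiv.mulRight₀ a h) (fun x => psi x)

/-- the quadratic function -/
def Qf (e f : ℕ) (v : K × K × K) (x : K) : K := v.1 * x + v.2.1 * x ^ e + v.2.2 * x ^ f

/-- the additive function representing the bilinear form -/
def Lf (m j k : ℕ) (b c y : K) : K :=
  (b * y) ^ 2 ^ (m - j) + b * y ^ 2 ^ j + (c * y) ^ 2 ^ (m - k) + c * y ^ 2 ^ k

lemma pow_add2 (n : ℕ) (x y : K) : (x + y) ^ 2 ^ n = x ^ 2 ^ n + y ^ 2 ^ n :=
  add_pow_char_pow x y 2 n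

lemma Lf_add (m j k : ℕ) (b c x y : K) : Lf m j k b c (x + y) = Lf m j k b c x + Lf m j k b c y := by
  unfold Lf
  rw [mul_add, mul_add, pow_add2, pow_add2, pow_add2, pow_add2]
  ring

lemma Lf_zero (m j k : ℕ) (b c : K) : Lf m j k b c 0 = 0 := by
  unfold Lf; simp

lemma polar (m j k : ℕ) (hm : Fintype.card K = 2 ^ m) (hj : j ≤ m) (hk : k ≤ m) (v : K × K × K)
    (x y : K) :
    psi (Qf (1 + 2 ^ j) (1 + 2 ^ k) v (x + y)) =
      psi (Qf (1 + 2 ^ j) (1 + 2 ^ k) v x) * psi (Qf (1 + 2 ^ j) (1 + 2 ^ k) v y)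
        * psi (x * Lf m j k v.2.1 v.2.2 y) := by
  obtain ⟨a, b, c⟩ := v
  have hfix : ∀ z : K, z ^ 2 ^ m = z := fun z => by rw [← hm]; exact FiniteField.pow_card z
  have key : ∀ (i : ℕ), i ≤ m → ∀ d : K,
      psi (d * x ^ 2 ^ i * y) = psi (x * (d * y) ^ 2 ^ (m - i)) := by
    intro i hi d
    apply psi_congr
    rw [← tr_pow (m - i) (d * x ^ 2 ^ i * y)]
    congr 1
    have h1 : (x ^ 2 ^ i) ^ 2 ^ (m - i) = x := by
      rw [← pow_mul, ← pow_add, Nat.add_sub_cancel' hi, hfix]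
    calc (d * x ^ 2 ^ i * y) ^ 2 ^ (m - i) = (x ^ 2 ^ i) ^ 2 ^ (m - i) * (d * y) ^ 2 ^ (m - i) := by
          rw [← mul_pow]; ring_nf
      _ = x * (d * y) ^ 2 ^ (m - i) := by rw [h1]
  have e1 : Qf (1 + 2 ^ j) (1 + 2 ^ k) (a, b, c) (x + y) =
      Qf (1 + 2 ^ j) (1 + 2 ^ k) (a, b, c) x + Qf (1 + 2 ^ j) (1 + 2 ^ k) (a, b, c) y
      + (b * x ^ 2 ^ j * y + x * (b * y ^ 2 ^ j) + (c * x ^ 2 ^ k * y + x * (c * y ^ 2 ^ k))) := by
    unfold Qf
    simp only
    rw [pow_add (x + y) 1, pow_add (x + y) 1, pow_add2, pow_add2]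
    ring
  rw [e1, psi_add, psi_add]
  congr 1
  rw [psi_add, psi_add, psi_add, key j hj b, key k hk c, ← psi_add, ← psi_add, ← psi_add]
  congr 1
  unfold Lf
  ring

lemma S_eq (e f : ℕ) (v : K × K × K) : S e f v = ∑ x : K, psi (Qf e f v x) := rfl

lemma S_sq (m j k : ℕ) (hm : Fintype.card K = 2 ^ m) (hj : j ≤ m) (hk : k ≤ m) (v : K × K × K) :
    S (1 + 2 ^ j) (1 + 2 ^ k) v ^ 2 = (2 : ℚ) ^ m *
      ∑ y : K, if Lf m j k v.2.1 v.2.2 y = 0 then psi (Qf (1 + 2 ^ j) (1 + 2 ^ k) v y) else 0 := by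
  rw [S_eq, sq, Finset.sum_mul_sum]
  have h1 : ∀ x : K, ∑ z : K, psi (Qf (1 + 2 ^ j) (1 + 2 ^ k) v x) * psi (Qf (1 + 2 ^ j) (1 + 2 ^ k) v z)
      = ∑ y : K, psi (Qf (1 + 2 ^ j) (1 + 2 ^ k) v y) * psi (x * Lf m j k v.2.1 v.2.2 y) := by
    intro x
    rw [← Equiv.sum_comp (Equiv.addLeft x)
      (fun z => psi (Qf (1 + 2 ^ j) (1 + 2 ^ k) v x) * psi (Qf (1 + 2 ^ j) (1 + 2 ^ k) v z))]
    refine Finset.sum_congr rfl fun y _ => ?_
    simp only [Equiv.coe_addLeft]
    rw [polar m j k hm hj hk v x y, ← mul_assoc, ← mul_assoc, psi_sq, one_mul]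
  simp_rw [h1]
  rw [Finset.sum_comm]
  simp_rw [← Finset.mul_sum, sum_psi_mul, hm]
  rw [Finset.mul_sum]
  refine Finset.sum_congr rfl fun y _ => ?_
  split_ifs <;> push_cast <;> ring

/-- the radical as an additive subgroup -/
noncomputable def Rad (m j k : ℕ) (b c : K) : AddSubgroup K where
  carrier := {y | Lf m j k b c y = 0}
  add_mem' := by
    intro x y hx hy
    simp only [Set.mem_ofPred_eq] at *
    rw [Lf_add, hx, hy, add_zero]
  zero_mem' := Lf_zero m j k b c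
  neg_mem' := by
    intro x hx
    have : -x = x := neg_eq_of_add_eq_zero_left (add_self x)
    simpa [this] using hx

lemma mem_Rad (m j k : ℕ) (b c y : K) : y ∈ Rad m j k b c ↔ Lf m j k b c y = 0 := Iff.rfl

lemma sum_rad (m j k : ℕ) (hm : Fintype.card K = 2 ^ m) (hj : j ≤ m) (hk : k ≤ m) (v : K × K × K) :
    (∑ y : K, if Lf m j k v.2.1 v.2.2 y = 0 then psi (Qf (1 + 2 ^ j) (1 + 2 ^ k) v y) else 0) = 0 ∨
    (∑ y : K, if Lf m j k v.2.1 v.2.2 y = 0 then psi (Qf (1 + 2 ^ j) (1 + 2 ^ k) v y) else 0)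
      = Nat.card (Rad m j k v.2.1 v.2.2) := by
  set q : K → ℚ := fun y => psi (Qf (1 + 2 ^ j) (1 + 2 ^ k) v y) with hq
  have hmul : ∀ x y, Lf m j k v.2.1 v.2.2 y = 0 → q (x + y) = q x * q y := by
    intro x y hy
    have := polar m j k hm hj hk v x y
    rw [hy, mul_zero, psi_zero, mul_one] at this
    exact this
  by_cases hex : ∃ y0, Lf m j k v.2.1 v.2.2 y0 = 0 ∧ q y0 = -1
  · left
    obtain ⟨y0, hy0, hq0⟩ := hex
    have h1 : (∑ y : K, if Lf m j k v.2.1 v.2.2 y = 0 then q y else 0) =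
        ∑ y : K, if Lf m j k v.2.1 v.2.2 (y + y0) = 0 then q (y + y0) else 0 :=
      (Equiv.sum_comp (Equiv.addRight y0) (fun y => if Lf m j k v.2.1 v.2.2 y = 0 then q y else 0)).symm
    have h2 : (∑ y : K, if Lf m j k v.2.1 v.2.2 (y + y0) = 0 then q (y + y0) else 0) =
        - ∑ y : K, if Lf m j k v.2.1 v.2.2 y = 0 then q y else 0 := by
      rw [← Finset.sum_neg_distrib]
      refine Finset.sum_congr rfl fun y _ => ?_
      rw [Lf_add, hy0, add_zero, hmul y y0 hy0, hq0]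
      split_ifs <;> simp
    rw [h2] at h1
    linarith
  · right
    push Not at hex
    have h1 : ∀ y, (if Lf m j k v.2.1 v.2.2 y = 0 then q y else 0)
        = if Lf m j k v.2.1 v.2.2 y = 0 then 1 else 0 := by
      intro y
      split_ifs with h
      · rcases psi_or (Qf (1 + 2 ^ j) (1 + 2 ^ k) v y) with h' | h'
        · exact h'
        · exact absurd h' (hex y h)
      · rfl
    rw [Finset.sum_congr rfl fun y _ => h1 y, Finset.sum_boole]
    congr 1
    rw [Nat.card_eq_fintype_card, Fintype.card_subtype]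
    congr 1

lemma card_Rad_pow (m j k : ℕ) (hm : Fintype.card K = 2 ^ m) (b c : K) :
    ∃ i, Nat.card (Rad m j k b c) = 2 ^ i := by
  have h1 : Nat.card (Rad m j k b c) ∣ 2 ^ m := by
    rw [← hm, ← Nat.card_eq_fintype_card]
    exact AddSubgroup.card_addSubgroup_dvd_card _
  obtain ⟨i, -, hi⟩ := (Nat.dvd_prime_pow Nat.prime_two).1 h1
  exact ⟨i, hi⟩

/-- the number of elements of the radical, case `C_t` -/
lemma card_Rad_C (t : ℕ) (ht : 2 ≤ t) (hm : Fintype.card K = 2 ^ (2 * t + 1)) (b c : K)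
    (hbc : ¬ (b = 0 ∧ c = 0)) : Nat.card (Rad (2 * t + 1) (t - 1) t b c) ≤ 16 := by
  classical
  let p : Polynomial K := Polynomial.C (b ^ 2 ^ (t + 2)) * Polynomial.X ^ 8
    + Polynomial.C (c ^ 2 ^ (t + 1)) * Polynomial.X ^ 4 + Polynomial.C c * Polynomial.X ^ 2
    + Polynomial.C b * Polynomial.X
  have hp : p ≠ 0 := by
    intro h
    have h1 : p.coeff 1 = b := by
      simp only [p, Polynomial.coeff_add, Polynomial.coeff_C_mul, Polynomial.coeff_X_pow,
        Polynomial.coeff_X]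
      norm_num
    have h2 : p.coeff 2 = c := by
      simp only [p, Polynomial.coeff_add, Polynomial.coeff_C_mul, Polynomial.coeff_X_pow,
        Polynomial.coeff_X]
      norm_num
    rw [h, Polynomial.coeff_zero] at h1 h2
    exact hbc ⟨h1.symm, h2.symm⟩
  have hdeg : p.natDegree ≤ 16 := by
    have : p.natDegree ≤ 8 := by
      simp only [p]
      compute_degree
    omega
  have hinj : Function.Injective (fun y : K => y ^ 2 ^ (t - 1)) := by
    intro x y hxy
    simp only at hxy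
    have h1 : (x + y) ^ 2 ^ (t - 1) = 0 := by rw [pow_add2, hxy, add_self]
    have h2 : x + y = 0 := pow_eq_zero_iff (by positivity) |>.1 h1
    calc x = x + (y + y) := by rw [add_self, add_zero]
      _ = (x + y) + y := by ring
      _ = y := by rw [h2, zero_add]
  have hmap : ∀ y ∈ (Rad (2 * t + 1) (t - 1) t b c : Set K).toFinset,
      y ^ 2 ^ (t - 1) ∈ p.roots.toFinset := by
    intro y hy
    rw [Set.mem_toFinset, SetLike.mem_coe, mem_Rad] at hy
    rw [Multiset.mem_toFinset, Polynomial.mem_roots hp, Polynomial.IsRoot.def]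
    rw [← hy]
    simp only [p, Polynomial.eval_add, Polynomial.eval_mul, Polynomial.eval_C,
      Polynomial.eval_pow, Polynomial.eval_X]
    unfold Lf
    have e1 : 2 * t + 1 - (t - 1) = t + 2 := by omega
    have e2 : 2 * t + 1 - t = t + 1 := by omega
    have e3 : 2 ^ (t - 1) * 8 = 2 ^ (t + 2) := by
      rw [show (8 : ℕ) = 2 ^ 3 by norm_num, ← pow_add]; congr 1; omega
    have e4 : 2 ^ (t - 1) * 4 = 2 ^ (t + 1) := by
      rw [show (4 : ℕ) = 2 ^ 2 by norm_num, ← pow_add]; congr 1; omega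
    have e5 : 2 ^ (t - 1) * 2 = 2 ^ t := by
      rw [← pow_succ]; congr 1; omega
    rw [e1, e2, ← pow_mul, e3, ← pow_mul, e4, ← pow_mul, e5, mul_pow, mul_pow]
    ring
  have hc1 : (Rad (2 * t + 1) (t - 1) t b c : Set K).toFinset.card ≤ p.roots.toFinset.card :=
    Finset.card_le_card_of_injOn (fun y => y ^ 2 ^ (t - 1)) hmap hinj.injOn
  have hc2 : Nat.card (Rad (2 * t + 1) (t - 1) t b c)
      = (Rad (2 * t + 1) (t - 1) t b c : Set K).toFinset.card := by
    rw [Set.toFinset_card, Nat.card_eq_fintype_card]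
    rfl
  rw [hc2]
  exact (hc1.trans (Multiset.toFinset_card_le _)).trans ((Polynomial.card_roots' p).trans hdeg)

/-- the number of elements of the radical, case `B_t` -/
lemma card_Rad_B (t : ℕ) (ht : 2 ≤ t) (hm : Fintype.card K = 2 ^ (2 * t + 1)) (b c : K)
    (hbc : ¬ (b = 0 ∧ c = 0)) : Nat.card (Rad (2 * t + 1) 1 2 b c) ≤ 16 := by
  classical
  have hfix : ∀ z : K, z ^ 2 ^ (2 * t + 1) = z := fun z => by
    rw [← hm]; exact FiniteField.pow_card z
  let p : Polynomial K := Polynomial.C (c ^ 4) * Polynomial.X ^ 16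
    + Polynomial.C (b ^ 4) * Polynomial.X ^ 8 + Polynomial.C (b ^ 2) * Polynomial.X ^ 2
    + Polynomial.C c * Polynomial.X
  have hp : p ≠ 0 := by
    intro h
    have h1 : p.coeff 1 = c := by
      simp only [p, Polynomial.coeff_add, Polynomial.coeff_C_mul, Polynomial.coeff_X_pow,
        Polynomial.coeff_X]
      norm_num
    have h2 : p.coeff 2 = b ^ 2 := by
      simp only [p, Polynomial.coeff_add, Polynomial.coeff_C_mul, Polynomial.coeff_X_pow,
        Polynomial.coeff_X]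
      norm_num
    rw [h, Polynomial.coeff_zero] at h1 h2
    exact hbc ⟨pow_eq_zero_iff (two_ne_zero) |>.1 h2.symm, h1.symm⟩
  have hdeg : p.natDegree ≤ 16 := by
    simp only [p]
    compute_degree
  have hmap : ∀ y ∈ (Rad (2 * t + 1) 1 2 b c : Set K).toFinset, y ∈ p.roots.toFinset := by
    intro y hy
    rw [Set.mem_toFinset, SetLike.mem_coe, mem_Rad] at hy
    rw [Multiset.mem_toFinset, Polynomial.mem_roots hp, Polynomial.IsRoot.def]
    have h4 : (Lf (2 * t + 1) 1 2 b c y) ^ 2 ^ 2 = 0 := by rw [hy]; simp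
    unfold Lf at h4
    rw [pow_add2, pow_add2, pow_add2] at h4
    have e1 : 2 ^ (2 * t + 1 - 1) * 2 ^ 2 = 2 ^ (2 * t + 1) * 2 := by
      rw [← pow_add, ← pow_succ]; congr 1
    have e2 : 2 ^ (2 * t + 1 - 2) * 2 ^ 2 = 2 ^ (2 * t + 1) := by
      rw [← pow_add]; congr 1; omega
    rw [← pow_mul, e1, pow_mul, hfix, ← pow_mul (c * y), e2, hfix] at h4
    simp only [p, Polynomial.eval_add, Polynomial.eval_mul, Polynomial.eval_C,
      Polynomial.eval_pow, Polynomial.eval_X]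
    rw [← h4]
    ring
  have hc1 : (Rad (2 * t + 1) 1 2 b c : Set K).toFinset.card ≤ p.roots.toFinset.card :=
    Finset.card_le_card hmap
  have hc2 : Nat.card (Rad (2 * t + 1) 1 2 b c)
      = (Rad (2 * t + 1) 1 2 b c : Set K).toFinset.card := by
    rw [Set.toFinset_card, Nat.card_eq_fintype_card]
    rfl
  rw [hc2]
  exact (hc1.trans (Multiset.toFinset_card_le _)).trans ((Polynomial.card_roots' p).trans hdeg)

lemma S_int (e f : ℕ) (v : K × K × K) : ∃ n : ℤ, S e f v = n := by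
  refine ⟨∑ x : K, if Algebra.trace (ZMod 2) K (v.1 * x + v.2.1 * x ^ e + v.2.2 * x ^ f) = 0
    then 1 else -1, ?_⟩
  unfold S psi
  push_cast
  rfl

lemma final (t i : ℕ) (hi : 2 ^ i ≤ 16) (s : ℚ) (hs : ∃ n : ℤ, s = n)
    (h : s ^ 2 = (2 : ℚ) ^ (2 * t + 1) * (2 : ℚ) ^ i) :
    s ∈ ({0, 2 ^ (t + 1), -2 ^ (t + 1), 2 ^ (t + 2), -2 ^ (t + 2)} : Finset ℚ) := by
  obtain ⟨n, rfl⟩ := hs
  have h1 : (n : ℤ) ^ 2 = 2 ^ (2 * t + 1 + i) := by
    have : ((n ^ 2 : ℤ) : ℚ) = ((2 ^ (2 * t + 1 + i) : ℤ) : ℚ) := by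
      push_cast; rw [h, ← pow_add]
    exact_mod_cast this
  have h2 : n.natAbs ^ 2 = 2 ^ (2 * t + 1 + i) := by
    have := congrArg Int.natAbs h1
    rwa [Int.natAbs_pow, Int.natAbs_pow] at this
  have h3 : n.natAbs ∣ 2 ^ (2 * t + 1 + i) := by rw [← h2]; exact dvd_pow_self _ two_ne_zero
  obtain ⟨r, -, hr⟩ := (Nat.dvd_prime_pow Nat.prime_two).1 h3
  rw [hr, ← pow_mul] at h2
  have h4 : r * 2 = 2 * t + 1 + i := Nat.pow_right_injective (le_refl 2) h2
  have hi4 : i ≤ 4 := by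
    by_contra hc
    have : 2 ^ 5 ≤ 2 ^ i := Nat.pow_le_pow_right (by norm_num) (by omega)
    omega
  have h5 : r = t + 1 ∨ r = t + 2 := by omega
  have h6 : (n : ℚ) = 2 ^ r ∨ (n : ℚ) = -2 ^ r := by
    rcases Int.natAbs_eq n with h7 | h7
    · left; rw [h7, hr]; push_cast; rfl
    · right; rw [h7, hr]; push_cast; rfl
  simp only [Finset.mem_insert, Finset.mem_singleton]
  rcases h5 with rfl | rfl <;> rcases h6 with h6 | h6 <;> rw [h6] <;> simp

theorem val_aux (t j k : ℕ) (hm : Fintype.card K = 2 ^ (2 * t + 1)) (hj : j ≤ 2 * t + 1)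
    (hk : k ≤ 2 * t + 1) (v : K × K × K)
    (hc : Nat.card (Rad (2 * t + 1) j k v.2.1 v.2.2) ≤ 16) :
    S (1 + 2 ^ j) (1 + 2 ^ k) v ∈
      ({0, 2 ^ (t + 1), -2 ^ (t + 1), 2 ^ (t + 2), -2 ^ (t + 2)} : Finset ℚ) := by
  have h1 := S_sq (2 * t + 1) j k hm hj hk v
  obtain ⟨i, hi⟩ := card_Rad_pow (2 * t + 1) j k hm v.2.1 v.2.2
  rcases sum_rad (2 * t + 1) j k hm hj hk v with h2 | h2
  · rw [h2, mul_zero] at h1
    have : S (1 + 2 ^ j) (1 + 2 ^ k) v = 0 := pow_eq_zero_iff two_ne_zero |>.1 h1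
    rw [this]; simp
  · rw [h2, hi] at h1
    push_cast at h1
    exact final t i (hi ▸ hc) _ (S_int _ _ v) h1

end

theorem t_VAL : S_VAL := by
  intro t ht K _ _ _ hm e f hef v hv
  by_cases hbc : v.2.1 = 0 ∧ v.2.2 = 0
  · have ha : v.1 ≠ 0 := by
      intro h
      apply hv
      obtain ⟨a, b, c⟩ := v
      simp only at h hbc
      rw [h, hbc.1, hbc.2]
      rfl
    have : S e f v = 0 := by
      unfold S
      rw [hbc.1, hbc.2]
      have h1 : ∀ x : K, psi (v.1 * x + 0 * x ^ e + 0 * x ^ f) = psi (x * v.1) := by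
        intro x; congr 1; ring
      simp_rw [h1]
      rw [sum_psi_mul, if_neg ha]
    rw [this]; simp
  · rcases hef with ⟨rfl, rfl⟩ | ⟨rfl, rfl⟩
    · exact val_aux t (t - 1) t hm (by omega) (by omega) v (card_Rad_C t ht hm _ _ hbc)
    · have := val_aux t 1 2 hm (by omega) (by omega) v (card_Rad_B t ht hm _ _ hbc)
      simpa using this

end Pool.Agent.Run7.h727.WD
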